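import Mathlib

/-!
Sums of a bounded number of terms `R j * X ^ n j`: the zero set in the exponents is cut out by a bounded
number of linear conditions `n a = n b + c`.
-/

set_option autoImplicit false

open Finset Polynomial

namespace Pool.MP33c792

/-- The determinant of a matrix of monomials has few terms. -/
theorem supp_det_le {d : ℕ} (E : Fin d → Fin d → ℕ) :
    (Matrix.det (Matrix.of fun i j => (X : ℤ[X]) ^ E i j)).support.card ≤ d.factorial := by
  classical
  have h1 : (Matrix.det (Matrix.of fun i j => (X : ℤ[X]) ^ E i j)).support ⊆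
      (univ : Finset (Equiv.Perm (Fin d))).image fun σ => ∑ i, E (σ i) i := by
    intro m hm
    rw [mem_support_iff, Matrix.det_apply, finsetSum_coeff] at hm
    obtain ⟨σ, _, hσ⟩ := exists_ne_zero_of_sum_ne_zero hm
    rw [mem_image]
    refine ⟨σ, mem_univ _, ?_⟩
    simp only [Matrix.of_apply] at hσ
    rw [prod_pow_eq_pow_sum] at hσ
    by_contra hne
    apply hσ
    rw [Units.smul_def, coeff_smul, coeff_X_pow, if_neg (fun h => hne h.symm), smul_zero]
  refine (card_le_card h1).trans (card_image_le.trans ?_)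
  rw [card_univ, Fintype.card_perm, Fintype.card_fin]

variable {ι : Type*} [DecidableEq ι]

/-- There are rows (solutions) and columns with a nonzero minor. -/
def HasMinor (S : Finset ι) (R : ι → ℤ[X]) (d : ℕ) : Prop :=
  ∃ r : Fin d → ι → ℕ, (∀ i, ∑ j ∈ S, R j * X ^ r i j = 0) ∧
    ∃ c : Fin d → ι, (∀ k, c k ∈ S) ∧
      Matrix.det (Matrix.of fun i k => (X : ℤ[X]) ^ r i (c k)) ≠ 0

theorem not_hasMinor_card (S : Finset ι) (R : ι → ℤ[X]) (hR : ∃ j ∈ S, R j ≠ 0) :
    ¬ HasMinor S R S.card := by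
  rintro ⟨r, hr, c, hc, hdet⟩
  have hinj : Function.Injective c := by
    intro k l hkl
    by_contra hne
    apply hdet
    refine Matrix.det_zero_of_column_eq hne fun i => ?_
    simp only [Matrix.of_apply, hkl]
  have himg : univ.image c = S := by
    refine eq_of_subset_of_card_le ?_ ?_
    · intro j hj
      rw [mem_image] at hj
      obtain ⟨k, _, rfl⟩ := hj
      exact hc k
    · rw [card_image_of_injective _ hinj, card_univ, Fintype.card_fin]
  apply hdet
  rw [← Matrix.exists_mulVec_eq_zero_iff]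
  obtain ⟨j, hj, hj0⟩ := hR
  refine ⟨fun k => R (c k), ?_, ?_⟩
  · intro h0
    rw [← himg, mem_image] at hj
    obtain ⟨k, _, rfl⟩ := hj
    exact hj0 (congrFun h0 k)
  · funext i
    have h1 := hr i
    rw [← himg, sum_image (fun a _ b _ h => hinj h)] at h1
    simp only [Matrix.mulVec, dotProduct, Matrix.of_apply, Pi.zero_apply]
    rw [← h1]
    exact sum_congr rfl fun k _ => mul_comm _ _

/-- One step of the elimination. -/
theorem step (S : Finset ι) (R : ι → ℤ[X]) (hR : ∃ j ∈ S, R j ≠ 0) :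
    ∃ Ψ : Finset (ι × ι × ℕ), Ψ.card ≤ S.card * S.card.factorial ∧
      (∀ ψ ∈ Ψ, ψ.1 ∈ S ∧ ψ.2.1 ∈ S ∧ ψ.1 ≠ ψ.2.1) ∧
      ∀ n : ι → ℕ, ∑ j ∈ S, R j * X ^ n j = 0 → ∃ ψ ∈ Ψ, n ψ.1 = n ψ.2.1 + ψ.2.2 := by
  have hex : ∃ d, d < S.card ∧ HasMinor S R d ∧ ¬ HasMinor S R (d + 1) := by
    by_contra hcon
    push Not at hcon
    have h0 : HasMinor S R 0 := by
      refine ⟨fun i => i.elim0, fun i => i.elim0, fun i => i.elim0, fun i => i.elim0, ?_⟩
      rw [Matrix.det_fin_zero]
      exact one_ne_zero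
    have h1 : ∀ d, d ≤ S.card → HasMinor S R d := by
      intro d
      induction d with
      | zero => intro _; exact h0
      | succ d ih => intro hd; exact hcon d (by omega) (ih (by omega))
    exact not_hasMinor_card S R hR (h1 _ le_rfl)
  obtain ⟨d, hd, ⟨r, hr, c, hc, hdet⟩, hno⟩ := hex
  obtain ⟨j₀, hj₀, hj₀c⟩ : ∃ j ∈ S, j ∉ univ.image c := by
    refine exists_mem_notMem_of_card_lt_card (lt_of_le_of_lt card_image_le ?_)
    rw [card_univ, Fintype.card_fin]
    exact hd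
  have hj₀c' : ∀ l, j₀ ≠ c l := fun l h => hj₀c (mem_image.2 ⟨l, mem_univ _, h.symm⟩)
  set c' : Fin (d + 1) → ι := Fin.cons j₀ c with hc'
  set Mk : Fin (d + 1) → ℤ[X] := fun k =>
    Matrix.det (Matrix.of fun (i : Fin d) (l : Fin d) => (X : ℤ[X]) ^ r i (c' (k.succAbove l)))
    with hMk
  have hMk0 : Mk 0 ≠ 0 := by
    have : Mk 0 = Matrix.det (Matrix.of fun i k => (X : ℤ[X]) ^ r i (c k)) := by
      rw [hMk]
      congr 1
    rw [this]
    exact hdet
  set m : ℕ := (Mk 0).natDegree with hm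
  have hm0 : (Mk 0).coeff m ≠ 0 := by
    rw [hm, coeff_natDegree]
    exact leadingCoeff_ne_zero.2 hMk0
  refine ⟨(univ : Finset (Fin d)).biUnion fun l => (Mk l.succ).support.image fun m' =>
    if m ≤ m' then (j₀, c l, m' - m) else (c l, j₀, m - m'), ?_, ?_, ?_⟩
  · refine card_biUnion_le.trans ?_
    have h1 : ∀ l ∈ (univ : Finset (Fin d)), ((Mk l.succ).support.image fun m' =>
        if m ≤ m' then (j₀, c l, m' - m) else (c l, j₀, m - m')).card ≤ d.factorial :=
      fun l _ => card_image_le.trans (supp_det_le _)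
    refine (sum_le_card_nsmul _ _ _ h1).trans ?_
    rw [card_univ, Fintype.card_fin, smul_eq_mul]
    exact Nat.mul_le_mul hd.le (Nat.factorial_le hd.le)
  · intro ψ hψ
    rw [mem_biUnion] at hψ
    obtain ⟨l, _, hl⟩ := hψ
    rw [mem_image] at hl
    obtain ⟨m', _, rfl⟩ := hl
    split_ifs
    · exact ⟨hj₀, hc l, hj₀c' l⟩
    · exact ⟨hc l, hj₀, (hj₀c' l).symm⟩
  · intro n hn
    set r' : Fin (d + 1) → ι → ℕ := Fin.cons n r with hr'
    have hdet0 : Matrix.det (Matrix.of fun i k => (X : ℤ[X]) ^ r' i (c' k)) = 0 := by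
      by_contra hne
      apply hno
      refine ⟨r', ?_, c', ?_, hne⟩
      · intro i
        refine Fin.cases ?_ ?_ i
        · exact hn
        · intro i
          exact hr i
      · intro k
        refine Fin.cases ?_ ?_ k
        · exact hj₀
        · intro k
          exact hc k
    rw [Matrix.det_succ_row_zero] at hdet0
    have h2 : ∀ k : Fin (d + 1), (-1 : ℤ[X]) ^ (k : ℕ) *
        (Matrix.of fun i k => (X : ℤ[X]) ^ r' i (c' k)) 0 k *
        ((Matrix.of fun i k => (X : ℤ[X]) ^ r' i (c' k)).submatrix Fin.succ k.succAbove).det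
        = (-1 : ℤ[X]) ^ (k : ℕ) * (X ^ n (c' k) * Mk k) := by
      intro k
      rw [mul_assoc]
      rfl
    rw [sum_congr rfl fun k _ => h2 k] at hdet0
    have h3 := congrArg (fun p : ℤ[X] => p.coeff (m + n j₀)) hdet0
    simp only [finsetSum_coeff, coeff_zero] at h3
    rw [Fin.sum_univ_succ] at h3
    have h4 : ((-1 : ℤ[X]) ^ ((0 : Fin (d + 1)) : ℕ) * (X ^ n (c' 0) * Mk 0)).coeff (m + n j₀)
        = (Mk 0).coeff m := by
      have : c' 0 = j₀ := rfl
      rw [this, Fin.val_zero, pow_zero, one_mul, coeff_X_pow_mul]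
    rw [h4] at h3
    have h5 : ∃ l : Fin d, ((-1 : ℤ[X]) ^ ((l.succ : Fin (d + 1)) : ℕ) *
        (X ^ n (c' l.succ) * Mk l.succ)).coeff (m + n j₀) ≠ 0 := by
      by_contra hcon
      push Not at hcon
      rw [sum_eq_zero fun l _ => hcon l, add_zero] at h3
      exact hm0 h3
    obtain ⟨l, hl⟩ := h5
    have h6 : (X ^ n (c l) * Mk l.succ).coeff (m + n j₀) ≠ 0 := by
      intro h0
      apply hl
      have hcl : c' l.succ = c l := rfl
      rw [hcl]
      rcases neg_one_pow_eq_or ℤ[X] ((l.succ : Fin (d + 1)) : ℕ) with h7 | h7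
      · rw [h7, one_mul, h0]
      · rw [h7, neg_one_mul, coeff_neg, h0, neg_zero]
    rw [coeff_X_pow_mul'] at h6
    have h8 : n (c l) ≤ m + n j₀ := by
      by_contra hcon
      rw [if_neg hcon] at h6
      exact h6 rfl
    rw [if_pos h8] at h6
    refine ⟨if m ≤ m + n j₀ - n (c l) then (j₀, c l, m + n j₀ - n (c l) - m)
      else (c l, j₀, m - (m + n j₀ - n (c l))), ?_, ?_⟩
    · rw [mem_biUnion]
      refine ⟨l, mem_univ _, ?_⟩
      rw [mem_image]
      exact ⟨m + n j₀ - n (c l), mem_support_iff.2 h6, rfl⟩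
    · split_ifs with h9
      · show n j₀ = n (c l) + (m + n j₀ - n (c l) - m)
        omega
      · show n (c l) = n j₀ + (m - (m + n j₀ - n (c l)))
        omega

/-- The bound for the number of conditions. -/
def CB : ℕ → ℕ
  | 0 => 1
  | b + 1 => (b + 1) * (b + 1).factorial * CB b

theorem CB_pos (b : ℕ) : 1 ≤ CB b := by
  induction b with
  | zero => exact le_rfl
  | succ b ih =>
    have h1 : 0 < (b + 1) * (b + 1).factorial * CB b :=
      Nat.mul_pos (Nat.mul_pos (Nat.succ_pos b) (Nat.factorial_pos _)) ih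
    exact h1

/-- Merging two terms. -/
theorem sum_merge {S : Finset ι} {R : ι → ℤ[X]} {a b : ι} {c : ℕ} (ha : a ∈ S) (hb : b ∈ S)
    (hab : a ≠ b) (n : ι → ℕ) (hn : n a = n b + c) :
    ∑ j ∈ S.erase a, Function.update R b (R b + R a * X ^ c) j * X ^ n j
      = ∑ j ∈ S, R j * X ^ n j := by
  have hb' : b ∈ S.erase a := mem_erase.2 ⟨hab.symm, hb⟩
  rw [← add_sum_erase S (fun j => R j * X ^ n j) ha,
    ← add_sum_erase (S.erase a) (fun j => R j * X ^ n j) hb',
    ← add_sum_erase (S.erase a)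
      (fun j => Function.update R b (R b + R a * X ^ c) j * X ^ n j) hb']
  have h1 : ∑ j ∈ (S.erase a).erase b, Function.update R b (R b + R a * X ^ c) j * X ^ n j
      = ∑ j ∈ (S.erase a).erase b, R j * X ^ n j := by
    refine sum_congr rfl fun j hj => ?_
    rw [Function.update_of_ne (ne_of_mem_erase hj)]
  rw [h1, Function.update_self, hn, pow_add]
  ring

/-- The certificate: the zero set of `∑ R j * X ^ n j` is covered by a bounded number of conditions
`n a = n b + c` which fail at a given point outside of the zero set. -/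
theorem cert : ∀ (b : ℕ) (S : Finset ι), S.card = b → ∀ (R : ι → ℤ[X]) (n' : ι → ℕ),
    ∑ j ∈ S, R j * X ^ n' j ≠ 0 →
    ∃ T : Finset (ι × ι × ℕ), T.card ≤ CB b ∧
      (∀ n : ι → ℕ, ∑ j ∈ S, R j * X ^ n j = 0 → ∃ ψ ∈ T, n ψ.1 = n ψ.2.1 + ψ.2.2) ∧
      ∀ ψ ∈ T, n' ψ.1 ≠ n' ψ.2.1 + ψ.2.2 := by
  intro b
  induction b with
  | zero =>
    intro S hS R n' h
    rw [card_eq_zero] at hS
    rw [hS, sum_empty] at h
    exact absurd rfl h
  | succ b ih =>
    intro S hS R n' h
    have hR : ∃ j ∈ S, R j ≠ 0 := by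
      by_contra hcon
      push Not at hcon
      apply h
      exact sum_eq_zero fun j hj => by rw [hcon j hj, zero_mul]
    obtain ⟨Ψ, hΨ1, hΨ2, hΨ3⟩ := step S R hR
    have hT : ∀ ψ : ι × ι × ℕ, ∃ T : Finset (ι × ι × ℕ), ψ ∈ Ψ → T.card ≤ CB b ∧
        (∀ n : ι → ℕ, ∑ j ∈ S, R j * X ^ n j = 0 → n ψ.1 = n ψ.2.1 + ψ.2.2 →
          ∃ ψ' ∈ T, n ψ'.1 = n ψ'.2.1 + ψ'.2.2) ∧
        ∀ ψ' ∈ T, n' ψ'.1 ≠ n' ψ'.2.1 + ψ'.2.2 := by
      intro ψ
      by_cases hψ : ψ ∈ Ψ
      · obtain ⟨h1, h2, h3⟩ := hΨ2 ψ hψ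
        by_cases hn' : n' ψ.1 = n' ψ.2.1 + ψ.2.2
        · have h4 : (S.erase ψ.1).card = b := by
            rw [card_erase_of_mem h1, hS]
            rfl
          obtain ⟨T, hT1, hT2, hT3⟩ := ih (S.erase ψ.1) h4
            (Function.update R ψ.2.1 (R ψ.2.1 + R ψ.1 * X ^ ψ.2.2)) n' (by
              rw [sum_merge h1 h2 h3 n' hn']
              exact h)
          refine ⟨T, fun _ => ⟨hT1, ?_, hT3⟩⟩
          intro n hn hnψ
          refine hT2 n ?_
          rw [sum_merge h1 h2 h3 n hnψ]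
          exact hn
        · refine ⟨{ψ}, fun _ => ⟨?_, ?_, ?_⟩⟩
          · rw [card_singleton]
            exact CB_pos b
          · intro n _ hnψ
            exact ⟨ψ, mem_singleton_self _, hnψ⟩
          · intro ψ' hψ'
            rw [mem_singleton] at hψ'
            rw [hψ']
            exact hn'
      · exact ⟨∅, fun h => absurd h hψ⟩
    choose T hT using hT
    refine ⟨Ψ.biUnion T, ?_, ?_, ?_⟩
    · refine card_biUnion_le.trans ?_
      refine (sum_le_card_nsmul _ _ _ fun ψ hψ => (hT ψ hψ).1).trans ?_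
      rw [smul_eq_mul]
      rw [hS] at hΨ1
      exact Nat.mul_le_mul_right _ hΨ1
    · intro n hn
      obtain ⟨ψ, hψ, hnψ⟩ := hΨ3 n hn
      obtain ⟨ψ', hψ', h5⟩ := (hT ψ hψ).2.1 n hn hnψ
      exact ⟨ψ', mem_biUnion.2 ⟨ψ, hψ, hψ'⟩, h5⟩
    · intro ψ' hψ'
      rw [mem_biUnion] at hψ'
      obtain ⟨ψ, hψ, h6⟩ := hψ'
      exact (hT ψ hψ).2.2 ψ' h6

end Pool.MP33c792
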