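import Pool.Agent.H.MP_33c792_lc.SUnit

/-!
Sparse families of polynomials and the bound for chains of their zero sets.
-/

set_option autoImplicit false

open Finset Polynomial

namespace Pool.MP33c792

section Def

variable {Y Y' G A : Type*} [Fintype A] {ℓ : G → A → ℕ}

/-- A family of polynomials `F y g` is sparse if it is a sum of a bounded number of terms `R * X ^ n`,
where `R` depends only on `g` and on a finite code of `y`, and `n` is bilinear in the vector `ℓ g` and in
vectors attached to `y`. -/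
def Sparse (ℓ : G → A → ℕ) (F : Y → G → ℤ[X]) : Prop :=
  ∃ (T ι : Type) (_ : Fintype T) (_ : Fintype ι) (τ : Y → T) (q : Y → ι → A → ℕ)
    (R : G → T → ι → ℤ[X]),
    ∀ y g, F y g = ∑ j, R g (τ y) j * X ^ (∑ a, ℓ g a * q y j a)

theorem Sparse.const (R : G → ℤ[X]) : Sparse (Y := Y) ℓ fun _ g => R g := by
  refine ⟨Unit, Unit, inferInstance, inferInstance, fun _ => (), fun _ _ _ => 0,
    fun g _ _ => R g, fun y g => ?_⟩
  simp

theorem Sparse.pow (q : Y → A → ℕ) : Sparse ℓ fun y g => (X : ℤ[X]) ^ (∑ a, ℓ g a * q y a) := by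
  refine ⟨Unit, Unit, inferInstance, inferInstance, fun _ => (), fun y _ a => q y a,
    fun g _ _ => 1, fun y g => ?_⟩
  simp

theorem Sparse.add {F F' : Y → G → ℤ[X]} (h : Sparse ℓ F) (h' : Sparse ℓ F') :
    Sparse ℓ fun y g => F y g + F' y g := by
  obtain ⟨T, ι, iT, iι, τ, q, R, hF⟩ := h
  obtain ⟨T', ι', iT', iι', τ', q', R', hF'⟩ := h'
  refine ⟨T × T', ι ⊕ ι', inferInstance, inferInstance, fun y => (τ y, τ' y),
    fun y => Sum.elim (q y) (q' y), fun g t => Sum.elim (R g t.1) (R' g t.2), fun y g => ?_⟩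
  show F y g + F' y g = _
  rw [Fintype.sum_sum_type, hF, hF']
  rfl

theorem Sparse.mul {F F' : Y → G → ℤ[X]} (h : Sparse ℓ F) (h' : Sparse ℓ F') :
    Sparse ℓ fun y g => F y g * F' y g := by
  obtain ⟨T, ι, iT, iι, τ, q, R, hF⟩ := h
  obtain ⟨T', ι', iT', iι', τ', q', R', hF'⟩ := h'
  refine ⟨T × T', ι × ι', inferInstance, inferInstance, fun y => (τ y, τ' y),
    fun y j a => q y j.1 a + q' y j.2 a, fun g t j => R g t.1 j.1 * R' g t.2 j.2, fun y g => ?_⟩
  show F y g * F' y g = _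
  rw [Fintype.sum_prod_type, hF, hF', sum_mul_sum]
  refine sum_congr rfl fun j _ => sum_congr rfl fun j' _ => ?_
  have h1 : ∑ a, ℓ g a * (q y j a + q' y j' a)
      = ∑ a, ℓ g a * q y j a + ∑ a, ℓ g a * q' y j' a := by
    rw [← sum_add_distrib]
    exact sum_congr rfl fun a _ => mul_add _ _ _
  simp only [h1, pow_add]
  ring

theorem Sparse.comp {F : Y → G → ℤ[X]} (h : Sparse ℓ F) (u : Y' → Y) :
    Sparse ℓ fun y g => F (u y) g := by
  obtain ⟨T, ι, iT, iι, τ, q, R, hF⟩ := h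
  exact ⟨T, ι, iT, iι, fun y => τ (u y), fun y => q (u y), R, fun y g => hF (u y) g⟩

open Classical in
/-- Case distinctions which depend on `g` and on a finite code of `y`. -/
theorem Sparse.ite {F F' : Y → G → ℤ[X]} (h : Sparse ℓ F) (h' : Sparse ℓ F') {C : Type}
    [Fintype C] (c : Y → C) (κ : C → G → Prop) :
    Sparse ℓ fun y g => if κ (c y) g then F y g else F' y g := by
  obtain ⟨T, ι, iT, iι, τ, q, R, hF⟩ := h
  obtain ⟨T', ι', iT', iι', τ', q', R', hF'⟩ := h'
  refine ⟨T × T' × C, ι ⊕ ι', inferInstance, inferInstance, fun y => (τ y, τ' y, c y),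
    fun y => Sum.elim (q y) (q' y),
    fun g t => Sum.elim (fun j => if κ t.2.2 g then R g t.1 j else 0)
      (fun j => if κ t.2.2 g then 0 else R' g t.2.1 j), fun y g => ?_⟩
  rw [Fintype.sum_sum_type]
  by_cases hκ : κ (c y) g
  · simp only [Sum.elim_inl, Sum.elim_inr, if_pos hκ, zero_mul, sum_const_zero, add_zero]
    rw [hF]
  · simp only [Sum.elim_inl, Sum.elim_inr, if_neg hκ, zero_mul, sum_const_zero, zero_add]
    rw [hF']

/-- Change of the parameters `g`. -/
theorem Sparse.pull {G' A' : Type*} [Fintype A'] {ℓ' : G' → A' → ℕ} {F : Y → G → ℤ[X]}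
    (h : Sparse ℓ F) (π : G' → G) (e : A → A')
    (hℓ : ∀ g a, ℓ' g (e a) = ℓ (π g) a) : Sparse ℓ' fun y g => F y (π g) := by
  classical
  obtain ⟨T, ι, iT, iι, τ, q, R, hF⟩ := h
  refine ⟨T, ι, iT, iι, τ, fun y j a' => ∑ a, if e a = a' then q y j a else 0,
    fun g => R (π g), fun y g => ?_⟩
  show F y (π g) = _
  rw [hF]
  refine sum_congr rfl fun j _ => ?_
  congr 2
  simp only [mul_sum]
  rw [sum_comm]
  refine sum_congr rfl fun a _ => ?_
  rw [sum_eq_single (e a)]
  · rw [if_pos rfl, hℓ]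
  · intro a' _ ha'
    rw [if_neg (fun h => ha' h.symm), mul_zero]
  · intro h
    exact absurd (mem_univ _) h

end Def

section Bound

variable {Y G A : Type*} [Fintype A] {ℓ : G → A → ℕ}

/-- Coefficients of a linear form on the vectors `(1, q)`. -/
def cf {ι : Type} [DecidableEq ι] (ℓ : G → A → ℕ) (g : G) :
    Option (ι × ι × ℕ) → Option (ι × A) → ℚ
  | none, none => 1
  | none, some _ => 0
  | some z, none => -(z.2.2 : ℚ)
  | some z, some w => ((if w.1 = z.1 then (ℓ g w.2 : ℚ) else 0)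
      - if w.1 = z.2.1 then (ℓ g w.2 : ℚ) else 0)

/-- The vector `(1, q)`. -/
def qv {ι : Type} (q : ι → A → ℕ) : Option (ι × A) → ℚ
  | none => 1
  | some w => (q w.1 w.2 : ℚ)

theorem cf_none {ι : Type} [Fintype ι] [DecidableEq ι] (g : G) (q : ι → A → ℕ) :
    ∑ m, cf ℓ g (none : Option (ι × ι × ℕ)) m * qv q m = 1 := by
  rw [Fintype.sum_option]
  simp [cf, qv]

theorem cf_some {ι : Type} [Fintype ι] [DecidableEq ι] (g : G) (q : ι → A → ℕ)
    (z : ι × ι × ℕ) :
    ∑ m, cf ℓ g (some z) m * qv q m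
      = ((∑ a, ℓ g a * q z.1 a : ℕ) : ℚ) - ((∑ a, ℓ g a * q z.2.1 a : ℕ) : ℚ) - z.2.2 := by
  rw [Fintype.sum_option, Fintype.sum_prod_type]
  simp only [cf, qv, sub_mul, ite_mul, zero_mul]
  have h1 : ∀ w : ι, ∑ j, ∑ a, (if j = w then (ℓ g a : ℚ) * (q j a : ℚ) else 0)
      = ((∑ a, ℓ g a * q w a : ℕ) : ℚ) := by
    intro w
    rw [sum_eq_single w]
    · push_cast
      exact sum_congr rfl fun a _ => if_pos rfl
    · intro j _ hj
      exact sum_eq_zero fun a _ => if_neg hj
    · intro h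
      exact absurd (mem_univ _) h
  simp only [sum_sub_distrib]
  rw [h1, h1]
  ring

theorem cf_eq_zero {ι : Type} [Fintype ι] [DecidableEq ι] (g : G) (q : ι → A → ℕ)
    (z : ι × ι × ℕ) :
    ∑ m, cf ℓ g (some z) m * qv q m = 0 ↔
      ∑ a, ℓ g a * q z.1 a = ∑ a, ℓ g a * q z.2.1 a + z.2.2 := by
  rw [cf_some, sub_sub, sub_eq_zero]
  norm_cast

/-- The bound for the length of a chain of zero sets of sparse polynomials. -/
theorem Sparse.bound {F : Y → G → ℤ[X]} (h : Sparse ℓ F) : ∃ K : ℕ, ∀ (t : ℕ) (y : Fin t → Y)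
    (g : Fin t → G), (∀ i p, i < p → F (y i) (g p) = 0) → (∀ p, F (y p) (g p) ≠ 0) → t ≤ K := by
  classical
  obtain ⟨T, ι, iT, iι, τ, q, R, hF⟩ := h
  set C : ℕ := CB (Fintype.card ι) with hC
  refine ⟨Fintype.card (T × (Fin C → Option (ι × A))), fun t y g h0 h1 => ?_⟩
  have hcert : ∀ p : Fin t, ∃ L : Fin C → Option (ι × ι × ℕ),
      (∀ i, τ (y i) = τ (y p) → F (y i) (g p) = 0 → ∃ l z, L l = some z ∧
        ∑ a, ℓ (g p) a * q (y i) z.1 a = ∑ a, ℓ (g p) a * q (y i) z.2.1 a + z.2.2) ∧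
      ∀ l z, L l = some z →
        ∑ a, ℓ (g p) a * q (y p) z.1 a ≠ ∑ a, ℓ (g p) a * q (y p) z.2.1 a + z.2.2 := by
    intro p
    obtain ⟨S, hS1, hS2, hS3⟩ := cert (Fintype.card ι) (univ : Finset ι) card_univ
      (R (g p) (τ (y p))) (fun j => ∑ a, ℓ (g p) a * q (y p) j a) (by
        rw [← hF]
        exact h1 p)
    refine ⟨fun l => S.toList[(l : ℕ)]?, ?_, ?_⟩
    · intro i hi hi0
      rw [hF, hi] at hi0
      obtain ⟨z, hz, hz'⟩ := hS2 _ hi0
      rw [← mem_toList, List.mem_iff_getElem?] at hz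
      obtain ⟨l, hl⟩ := hz
      have hlC : l < C := by
        have h2 : l < S.toList.length := by
          by_contra hcon
          rw [List.getElem?_eq_none (not_lt.1 hcon)] at hl
          exact absurd hl (by simp)
        rw [length_toList] at h2
        exact lt_of_lt_of_le h2 hS1
      exact ⟨⟨l, hlC⟩, z, hl, hz'⟩
    · intro l z hl
      exact hS3 z (mem_toList.1 (List.mem_of_getElem? hl))
  choose L hL1 hL2 using hcert
  set Am : Matrix (Fin t) (T × (Fin C → Option (ι × A))) ℚ := Matrix.of fun p cm =>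
    (if τ (y p) = cm.1 then 1 else 0) * ∏ l, cf ℓ (g p) (L p l) (cm.2 l) with hAm
  set Bm : Matrix (T × (Fin C → Option (ι × A))) (Fin t) ℚ := Matrix.of fun cm i =>
    (if τ (y i) = cm.1 then 1 else 0) * ∏ l, qv (q (y i)) (cm.2 l) with hBm
  have hprod : ∀ p i, (Am * Bm) p i = (if τ (y i) = τ (y p) then 1 else 0) *
      ∏ l, ∑ m, cf ℓ (g p) (L p l) m * qv (q (y i)) m := by
    intro p i
    rw [Matrix.mul_apply, Fintype.sum_prod_type, prod_univ_sum, Fintype.piFinset_univ]
    have h2 : ∀ c : T, ∑ m : Fin C → Option (ι × A), Am p (c, m) * Bm (c, m) i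
        = (if τ (y p) = c then 1 else 0) * (if τ (y i) = c then 1 else 0) *
          ∑ m : Fin C → Option (ι × A), ∏ l, cf ℓ (g p) (L p l) (m l) * qv (q (y i)) (m l) := by
      intro c
      rw [mul_sum]
      refine sum_congr rfl fun m _ => ?_
      simp only [hAm, hBm, Matrix.of_apply, prod_mul_distrib]
      ring
    rw [sum_congr rfl fun c _ => h2 c, ← sum_mul]
    congr 1
    rw [sum_eq_single (τ (y p))]
    · rw [if_pos rfl, one_mul]
    · intro c _ hc
      rw [if_neg (fun h => hc h.symm), zero_mul]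
    · intro h
      exact absurd (mem_univ _) h
  have htri : (Am * Bm).BlockTriangular id := by
    intro p i hpi
    have hip : i < p := hpi
    rw [hprod]
    by_cases hτ : τ (y i) = τ (y p)
    · obtain ⟨l, z, hlz, hz⟩ := hL1 p i hτ (h0 i p hip)
      rw [prod_eq_zero (mem_univ l), mul_zero]
      rw [hlz, cf_eq_zero]
      exact hz
    · rw [if_neg hτ, zero_mul]
  have hdiag : ∀ p, (Am * Bm) p p ≠ 0 := by
    intro p
    rw [hprod, if_pos rfl, one_mul, prod_ne_zero_iff]
    intro l _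
    rcases hl : L p l with _ | z
    · rw [cf_none]
      exact one_ne_zero
    · rw [Ne, cf_eq_zero]
      exact hL2 p l z hl
  have hdet : IsUnit (Am * Bm) := by
    rw [Matrix.isUnit_iff_isUnit_det, Matrix.det_of_upperTriangular htri, isUnit_iff_ne_zero,
      prod_ne_zero_iff]
    exact fun p _ => hdiag p
  have hrank := Matrix.rank_of_isUnit _ hdet
  rw [Fintype.card_fin] at hrank
  calc t = (Am * Bm).rank := hrank.symm
    _ ≤ Am.rank := Matrix.rank_mul_le_left _ _
    _ ≤ _ := Matrix.rank_le_card_width _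

end Bound

end Pool.MP33c792
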