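import Pool.Agent.H.MP_33c792_lc.Sparse

/-!
Words, their polynomials, and words of bounded power depth.
-/

set_option autoImplicit false

open Finset Polynomial

namespace Pool.MP33c792

/-- The polynomial of a word over the alphabet of the natural numbers. -/
noncomputable def PW : List ℕ → ℤ[X]
  | [] => 0
  | a :: w => C ((a : ℤ) + 1) + X * PW w

theorem PW_append (u v : List ℕ) : PW (u ++ v) = PW u + X ^ u.length * PW v := by
  induction u with
  | nil => simp [PW]
  | cons a u ih =>
    rw [List.cons_append, PW, PW, ih, List.length_cons, pow_succ]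
    ring

theorem PW_coeff_zero (a : ℕ) (w : List ℕ) : (PW (a :: w)).coeff 0 = (a : ℤ) + 1 := by
  rw [PW, coeff_add, coeff_C_zero, mul_coeff_zero, coeff_X_zero, zero_mul, add_zero]

theorem PW_inj : ∀ u v : List ℕ, PW u = PW v → u = v
  | [], [] => fun _ => rfl
  | [], a :: v => fun h => by
    have h1 := congrArg (fun p : ℤ[X] => p.coeff 0) h
    simp only [PW_coeff_zero] at h1
    rw [PW, coeff_zero] at h1
    omega
  | a :: u, [] => fun h => by
    have h1 := congrArg (fun p : ℤ[X] => p.coeff 0) h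
    simp only [PW_coeff_zero] at h1
    rw [PW, coeff_zero] at h1
    omega
  | a :: u, b :: v => fun h => by
    have h1 := congrArg (fun p : ℤ[X] => p.coeff 0) h
    simp only [PW_coeff_zero] at h1
    have hab : a = b := by omega
    subst hab
    rw [PW, PW] at h
    have h2 : X * PW u = X * PW v := add_left_cancel h
    rw [PW_inj u v (mul_left_cancel₀ X_ne_zero h2)]

theorem PW_pow (w : List ℕ) (k : ℕ) : PW (List.replicate k w).flatten * (X ^ w.length - 1)
    = PW w * (X ^ (k * w.length) - 1) := by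
  induction k with
  | zero => simp [PW]
  | succ k ih =>
    rw [List.replicate_succ, List.flatten_cons, PW_append, add_mul, mul_assoc, ih, add_mul, one_mul,
      pow_add]
    ring

variable {m : ℕ}

/-- The lengths of the images of the letters. -/
def len (g : Fin m → List ℕ) (b : Fin m) : ℕ := (g b).length

theorem length_flatMap' (g : Fin m → List ℕ) (w : List (Fin m)) :
    (w.flatMap g).length = ∑ b, len g b * w.count b := by
  induction w with
  | nil => simp
  | cons a w ih =>
    rw [List.flatMap_cons, List.length_append, ih]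
    have h1 : ∀ b, len g b * (a :: w).count b
        = len g b * w.count b + if a = b then len g b else 0 := by
      intro b
      rw [List.count_cons]
      by_cases h : a = b
      · subst h
        simp [mul_add]
      · simp [h]
    rw [sum_congr rfl fun b _ => h1 b, sum_add_distrib, sum_ite_eq, if_pos (mem_univ _), add_comm]
    rfl

theorem flatMap_pow {α β : Type*} (g : α → List β) (w : List α) (k : ℕ) :
    ((List.replicate k w).flatten).flatMap g = (List.replicate k (w.flatMap g)).flatten := by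
  induction k with
  | zero => rfl
  | succ k ih =>
    rw [List.replicate_succ, List.flatten_cons, List.flatMap_append, ih, List.replicate_succ,
      List.flatten_cons]

/-- Words over the letters of power depth at most `s`. -/
def Cls (m : ℕ) : ℕ → Set (List (Fin m))
  | 0 => {w | w = [] ∨ ∃ b, w = [b]}
  | s + 1 => {w | ∃ u ∈ Cls m s, ∃ v ∈ Cls m s, ∃ k : ℕ, w = (List.replicate k (u ++ v)).flatten}

theorem Sparse.code {Y G A : Type*} [Fintype A] {ℓ : G → A → ℕ} {T : Type} [Fintype T] (τ : Y → T)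
    (R : G → T → ℤ[X]) : Sparse ℓ fun y g => R g (τ y) := by
  refine ⟨T, Unit, inferInstance, inferInstance, τ, fun _ _ _ => 0,
    fun g t _ => R g t, fun y g => ?_⟩
  simp

theorem sparse_len {Y : Type*} (x : Y → List (Fin m)) :
    Sparse (len (m := m)) fun y g => (X : ℤ[X]) ^ ((x y).flatMap g).length := by
  have h1 := Sparse.pow (ℓ := len (m := m)) fun (y : Y) b => (x y).count b
  have h2 : (fun (y : Y) (g : Fin m → List ℕ) => (X : ℤ[X]) ^ ((x y).flatMap g).length)
      = fun y g => (X : ℤ[X]) ^ (∑ b, len g b * (x y).count b) := by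
    funext y g
    rw [length_flatMap']
  rw [h2]
  exact h1

/-- The polynomials of the images of the words of power depth `s` are quotients of sparse families. -/
def Good (m s : ℕ) : Prop :=
  ∃ F D : {w // w ∈ Cls m s} → (Fin m → List ℕ) → ℤ[X], Sparse len F ∧ Sparse len D ∧
    (∀ y g, D y g ≠ 0) ∧ ∀ y g, D y g * PW (y.1.flatMap g) = F y g

theorem good_zero : Good m 0 := by
  refine ⟨fun y g => PW (y.1.flatMap g), fun _ _ => 1, ?_, Sparse.const _,
    fun _ _ => one_ne_zero, fun y g => one_mul _⟩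
  have h1 := Sparse.code (ℓ := len (m := m)) (T := Option (Fin m))
    (fun y : {w // w ∈ Cls m 0} => y.1.head?) fun g t => PW (t.toList.flatMap g)
  have h2 : (fun (y : {w // w ∈ Cls m 0}) (g : Fin m → List ℕ) => PW (y.1.flatMap g))
      = fun y g => PW ((y.1.head?).toList.flatMap g) := by
    funext y g
    obtain ⟨w, hw⟩ := y
    rcases hw with rfl | ⟨b, rfl⟩
    · rfl
    · rfl
  rw [h2]
  exact h1

theorem X_pow_sub_one_ne {n : ℕ} (hn : n ≠ 0) : (X ^ n - 1 : ℤ[X]) ≠ 0 := by
  intro h
  have h1 := congrArg (fun p : ℤ[X] => p.coeff n) h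
  simp only [coeff_sub, coeff_X_pow_self, coeff_one, if_neg hn, coeff_zero] at h1
  norm_num at h1

theorem good_succ {s : ℕ} (h : Good m s) : Good m (s + 1) := by
  classical
  obtain ⟨F, D, hF, hD, hD0, hDF⟩ := h
  have hex : ∀ y : {w // w ∈ Cls m (s + 1)}, ∃ (u v : {w // w ∈ Cls m s}) (k : ℕ),
      y.1 = (List.replicate k (u.1 ++ v.1)).flatten := by
    rintro ⟨y, u, hu, v, hv, k, hk⟩
    exact ⟨⟨u, hu⟩, ⟨v, hv⟩, k, hk⟩
  choose u v k hk using hex
  set Fuv : {w // w ∈ Cls m (s + 1)} → (Fin m → List ℕ) → ℤ[X] := fun y g =>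
    D (v y) g * F (u y) g + X ^ ((u y).1.flatMap g).length * (D (u y) g * F (v y) g) with hFuv
  set Duv : {w // w ∈ Cls m (s + 1)} → (Fin m → List ℕ) → ℤ[X] := fun y g =>
    D (u y) g * D (v y) g with hDuv
  have hsF : Sparse len Fuv :=
    ((hD.comp v).mul (hF.comp u)).add ((sparse_len fun y => (u y).1).mul
      ((hD.comp u).mul (hF.comp v)))
  have hsD : Sparse len Duv := (hD.comp u).mul (hD.comp v)
  have hsL : Sparse len fun (y : {w // w ∈ Cls m (s + 1)}) (g : Fin m → List ℕ) =>
      (X : ℤ[X]) ^ (y.1.flatMap g).length + (-1) :=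
    (sparse_len fun y : {w // w ∈ Cls m (s + 1)} => y.1).add (Sparse.const fun _ => -1)
  have hsW : Sparse len fun (y : {w // w ∈ Cls m (s + 1)}) (g : Fin m → List ℕ) =>
      (X : ℤ[X]) ^ (((u y).1 ++ (v y).1).flatMap g).length + (-1) :=
    (sparse_len fun y => (u y).1 ++ (v y).1).add (Sparse.const fun _ => -1)
  have huv : ∀ y g, Duv y g * PW (((u y).1 ++ (v y).1).flatMap g) = Fuv y g := by
    intro y g
    rw [List.flatMap_append, PW_append, hFuv, hDuv]
    simp only [← hDF]
    ring
  have hκ : ∀ (y : {w // w ∈ Cls m (s + 1)}) (g : Fin m → List ℕ),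
      (∀ b ∈ ((u y).1 ++ (v y).1).toFinset, g b = []) ↔
        ((u y).1 ++ (v y).1).flatMap g = [] := by
    intro y g
    rw [List.flatMap_eq_nil_iff]
    simp only [List.mem_toFinset]
  have hite := fun (F₁ F₂ : {w // w ∈ Cls m (s + 1)} → (Fin m → List ℕ) → ℤ[X])
    (h₁ : Sparse len F₁) (h₂ : Sparse len F₂) =>
    Sparse.ite h₁ h₂ (C := Finset (Fin m)) (fun y => ((u y).1 ++ (v y).1).toFinset)
      fun c g => ∀ b ∈ c, g b = []
  refine ⟨_, _, hite (fun _ _ => 0) _ (Sparse.const _) (hsF.mul hsL),
    hite (fun _ _ => 1) _ (Sparse.const _) (hsD.mul hsW), ?_, ?_⟩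
  · intro y g
    split_ifs with h0
    · exact one_ne_zero
    · rw [hκ] at h0
      refine mul_ne_zero (mul_ne_zero (hD0 _ _) (hD0 _ _)) ?_
      have h1 := X_pow_sub_one_ne (n := (((u y).1 ++ (v y).1).flatMap g).length) (by
        rw [Ne, List.length_eq_zero_iff]
        exact h0)
      rwa [sub_eq_add_neg] at h1
  · intro y g
    have hy : y.1.flatMap g = (List.replicate (k y) (((u y).1 ++ (v y).1).flatMap g)).flatten := by
      rw [hk y, flatMap_pow]
    split_ifs with h0
    · rw [hκ] at h0
      rw [hy, h0, one_mul]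
      have : (List.replicate (k y) ([] : List ℕ)).flatten = [] := by simp
      rw [this]
      rfl
    · have hlen : (y.1.flatMap g).length = k y * (((u y).1 ++ (v y).1).flatMap g).length := by
        rw [hy]
        simp
      rw [hlen, hy, ← huv]
      have h2 := PW_pow (((u y).1 ++ (v y).1).flatMap g) (k y)
      rw [sub_eq_add_neg, sub_eq_add_neg] at h2
      linear_combination (Duv y g) * h2

theorem good_all (s : ℕ) : Good m s := by
  induction s with
  | zero => exact good_zero
  | succ s ih => exact good_succ ih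

/-- Chains of words of bounded power depth over the letters. -/
theorem core (m s : ℕ) : ∃ K : ℕ, ∀ (t : ℕ) (y : Fin t → List (Fin m)) (_ : ∀ i, y i ∈ Cls m s)
    (g h : Fin t → Fin m → List ℕ),
    (∀ i p, i < p → (y i).flatMap (g p) = (y i).flatMap (h p)) →
    (∀ p, (y p).flatMap (g p) ≠ (y p).flatMap (h p)) → t ≤ K := by
  obtain ⟨F, D, hF, hD, hD0, hDF⟩ := good_all (m := m) s
  let ℓ : (Fin m → List ℕ) × (Fin m → List ℕ) → Fin m ⊕ Fin m → ℕ :=
    fun p => Sum.elim (len p.1) (len p.2)
  have hF1 : Sparse ℓ fun y p => F y p.1 := hF.pull Prod.fst Sum.inl fun _ _ => rfl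
  have hF2 : Sparse ℓ fun y p => F y p.2 := hF.pull Prod.snd Sum.inr fun _ _ => rfl
  have hD1 : Sparse ℓ fun y p => D y p.1 := hD.pull Prod.fst Sum.inl fun _ _ => rfl
  have hD2 : Sparse ℓ fun y p => D y p.2 := hD.pull Prod.snd Sum.inr fun _ _ => rfl
  have hΦ := (hF1.mul hD2).add ((Sparse.const fun _ => (-1 : ℤ[X])).mul (hD1.mul hF2))
  obtain ⟨K, hK⟩ := hΦ.bound
  refine ⟨K, fun t y hy g h h0 h1 => ?_⟩
  have key : ∀ (w : {w // w ∈ Cls m s}) (g h : Fin m → List ℕ),
      F w g * D w h + -1 * (D w g * F w h) = 0 ↔ w.1.flatMap g = w.1.flatMap h := by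
    intro w g h
    have h2 : F w g * D w h + -1 * (D w g * F w h)
        = (D w g * D w h) * (PW (w.1.flatMap g) - PW (w.1.flatMap h)) := by
      rw [← hDF, ← hDF]
      ring
    rw [h2, mul_eq_zero, or_iff_right (mul_ne_zero (hD0 _ _) (hD0 _ _)), sub_eq_zero]
    exact ⟨fun h => PW_inj _ _ h, fun h => by rw [h]⟩
  refine hK t (fun i => ⟨y i, hy i⟩) (fun p => (g p, h p)) ?_ ?_
  · intro i p hip
    exact (key ⟨y i, hy i⟩ (g p) (h p)).2 (h0 i p hip)
  · intro p hp
    exact h1 p ((key ⟨y p, hy p⟩ (g p) (h p)).1 hp)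

end Pool.MP33c792
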